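import Pool.Agent.H42.DeltaReg

namespace Pool.Agent.Results.MP_e5b57d_lc.Full

open Cardinal

universe u

/-- `δ` is the least coordinate at which `x` and `y` differ. -/
def IsDelta {K : Type u} [LinearOrder K] (x y : K → Bool) (δ : K) : Prop :=
  x δ ≠ y δ ∧ ∀ i < δ, x i = y i

/-- For some `μ`, the colour of each pair is below the larger of `μ` and the first difference. -/
def AlmostDeltaRegressive {K : Type u} [LinearOrder K] (c : Sym2 (K → Bool) → K) : Prop :=
  ∃ μ : K, ∀ (x y : K → Bool) (δ : K), IsDelta x y δ → c s(x, y) < max δ μ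

/-- `c` is constant on the pairs of distinct points of `Y`. -/
def Mono {K : Type u} (c : Sym2 (K → Bool) → K) (Y : Set (K → Bool)) : Prop :=
  ∃ col : K, ∀ x ∈ Y, ∀ y ∈ Y, x ≠ y → c s(x, y) = col

theorem result (κ : Cardinal.{u}) (hκ : ℵ₀ < κ)
    (hpow : ∀ μ < κ, (2 : Cardinal.{u}) ^ μ < 2 ^ κ)
    (c : Sym2 (κ.ord.ToType → Bool) → κ.ord.ToType) (hc : AlmostDeltaRegressive c)
    (ν : Cardinal.{u}) (hν : ν < κ) :
    ∃ Y : Set (κ.ord.ToType → Bool), Y.Infinite ∧ ν < #Y ∧ Mono c Y := by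
  obtain ⟨μ, hμ⟩ := hc
  have hμκ : #(Set.Iio μ) < κ := mk_Iio_toType_ord_lt μ
  obtain ⟨Y, hY, col, hcol⟩ := Pool.Agent.H42.DeltaReg.mono_main
    (ν := max ℵ₀ (max ν #(Set.Iio μ))) (le_max_left _ _)
    (hpow _ (max_lt hκ (max_lt hν hμκ))) μ ((le_max_right _ _).trans (le_max_right _ _))
    (fun x y => c s(x, y)) (fun x y => by rw [Sym2.eq_swap])
    (fun x y δ h1 h2 h3 => by
      have := hμ x y δ ⟨h1, h2⟩
      rwa [max_eq_left h3.le] at this)
  refine ⟨Y, ?_, ((le_max_left _ _).trans (le_max_right _ _)).trans_lt hY, col, hcol⟩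
  rw [← Set.infinite_coe_iff, infinite_iff]
  exact (le_max_left _ _).trans hY.le

end Pool.Agent.Results.MP_e5b57d_lc.Full
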